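import Pool.Agent.R882.HL
import Pool.Agent.R882.CSpec

/-!
# Special and geometrically-special varieties: products of projective lines

Let `V 0 ⇢ V 1 ⇢ ... ⇢ V k` be a tower (`LinesTower`, `Pool/Agent/R882/HL.lean`) of varieties of
dimension `n ≥ 1`, where `V k` is any unirational variety, each `V i`, `i < k`, is a smooth complete
intersection, of any codimension `q`, of hypersurfaces of multidegrees `(d_{l,a})`, `l = 1, ..., q`,
in the product of the projective lines with the coordinates `x_a`, `a = 1, ..., n + q`, with
`Σ_l d_{l,a} = m_a + 2`, so that the canonical divisor of `V i` is `O(m_a)`, `m_a ≥ 0`, and
`V (i + 1)` is birational to the image of `V i` under the projection which forgets one coordinate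
`x_{a0}`. (If `V 0` is a smooth hypersurface then `k = 1` and `V 1` is a product of `n` projective
lines. A triangular system `F 1 (t, y 1) = 0`, ..., `F k (t, y 1, ..., y k) = 0`, where
`t = (t 1, ..., t n)`, gives a tower if the first `i` equations define a smooth complete intersection
for all `i`.) It is assumed that `s i ≤ m_a + 1` for all `a ≠ a0`, for the numbers `m_a` of `V i`,
where `s i = s / (b 0 ⋯ b (i - 1))` and `b i` is the degree of `V i` over `V (i + 1)`; nothing is
assumed about `m_{a0}`.

Let `V 0 ⇢ X` be any dominant rational map of degree `r`, where the above holds for `s = 2 r`;
nothing is assumed about the map (it need not be a quotient by a group and has no relation to the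
tower) or about `X`. The theorem: if `X` is special then it is unirational. In fact `X` is
either of general type or unirational. So if such an `X` (any projective model) is special then
it is geometrically-special, like all unirational varieties (a standard fact which is not formalised
here). The same holds if `X` is only assumed to be not of general type.

Proof: if `X` is not of general type and `V i ⇢ X` is a rational map then it factors through
`V i ⇢ V (i + 1)`, because the traces to `X` of the forms `A x_{a0} ^ j Res`, where `Res` is the
residue form on `V i` and `A` is a polynomial in the other coordinates, do not separate the general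
points of `X`. So
`X` is dominated by `V k`, and it is unirational. If `X` is of general
type then the canonical sheaf is a Bogomolov sheaf.

`K` and `L` are the function fields of `V 0` and `X`. `Special ℂ L n ∅`: there is no Bogomolov sheaf
on the smooth projective varieties with function field `L` (`Pool/Agent/W602/GT`).
`IsUnirational ℂ L n`: `L` embeds in the field of rational functions in `n` variables
(`Pool/Agent/W619/TW`).
-/

set_option autoImplicit false
set_option linter.overlappingInstances false

open FF Module Pool.Agent.W602.GT
open Pool.Agent.W619.TW (IsUnirational)
open Pool.Agent.R882.HL (LinesTower)

namespace Pool.Agent.Results.MP_aad98f_ag.SpecialImages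

/-- **Special images of complete intersections in products of lines.** Let `K` be the function field of the first variety `V` of a tower of
smooth complete intersections of dimension `n ≥ 1` in products of projective lines over a
unirational variety, of height `2 r`, and let `V ⇢ X` be a dominant rational map of degree `r`, `L`
the function field of `X`. Then `X` is of general type or unirational, and if `X` is special
then it is unirational. -/
theorem result {n : ℕ} (hn : 1 ≤ n) {K : Type} [Field K] [Algebra ℂ K]
    (hK : Algebra.trdeg ℂ K = (n : ℕ))
    (L : Type) [Field L] [Algebra ℂ L] [Algebra L K] [IsScalarTower ℂ L K]
    [FiniteDimensional L K]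
    (h : LinesTower n (fun E _ _ => IsUnirational ℂ E n) K (2 * Module.finrank L K)) :
    (Special ℂ L n (fun _ => False) → IsUnirational ℂ L n) ∧
    (GeneralType ℂ L n ∨ IsUnirational ℂ L n) :=
  have hd := Pool.Agent.R882.HL.dichotomy hn (Pool.Agent.R882.HT.descends_unirational n) hK L h
  ⟨fun hS => hd.resolve_left fun hg => Pool.Agent.R882.LT.not_special_of_gt hn hg hS, hd⟩

end Pool.Agent.Results.MP_aad98f_ag.SpecialImages
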