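import Pool.Agent.R882.HT
import Pool.Agent.R882.CSpec

/-!
# Special and geometrically-special varieties: images of towers

A tower (`Tower`, `Pool/Agent/R882/HT.lean`) is a sequence of generically finite maps
`V 0 ⇢ V 1 ⇢ ... ⇢ V k` of varieties of dimension `n ≥ 1`, where `V k` is any unirational variety and
each `V i`, `i < k`, is a component of the set of common zeros in a torus `(ℂ^*) ^ (n + q)` of a
system `f` of Laurent polynomials which is nondegenerate in the sense of Khovanskii, with arbitrary
Newton polytopes, and `V (i + 1)` is birational to the image of `V i` under monomials
`t l = x ^ (w l)`, where `ℂ(V i) = ℂ(V (i + 1))(y)` for a monomial `y = x ^ v`. (Typical towers are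
given by triangular systems `f 1 (t, y 1) = 0`, `f 2 (t, y 1, y 2) = 0`, ...,
`f k (t, y 1, ..., y k) = 0`; then `V k` is the torus.) Let `b i` be the degree of `V i` over
`V (i + 1)`. It is assumed that there are columns for `s i = s / (b 0 ⋯ b (i - 1))` in the Fine
interior of the Newton polytopes of `V i`: for each divisor `c < b i` of `b i` an `M` with
`s i ≤ c (M + 1)` such that the `u + j v` and the `u + j v + M w l` are in the Fine interior for all
`j < c`. (If `b i` is a prime number: `u` and the `u + (s i - 1) w l` are in the Fine interior.)

Let `V 0 ⇢ X` be any dominant rational map of degree `r`, where there are columns for `s = 2 r`;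
nothing is assumed about the map (it need not be a quotient by a group and has no relation to the
tower) or about `X`. The theorem: if `X` is special then it is unirational. In fact `X` is
either of general type or unirational. So if such an `X` (any projective model) is special then
it is geometrically-special, like all unirational varieties (a standard fact which is not formalised
here). The same holds if `X` is only assumed to be not of general type.

Proof: if `X` is not of general type and `V i ⇢ X` is a rational map then it factors through
`V i ⇢ V (i + 1)`, because the traces to `X` of the forms `A(t) x ^ u y ^ j Res`, where `Res` is the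
residue form on `V i` and `A` has degree at most `M`, do not separate the general
points of `X`. So
`X` is dominated by `V k`, and it is unirational. If `X` is of general
type then the canonical sheaf is a Bogomolov sheaf.

`K` and `L` are the function fields of `V 0` and `X`. `Special ℂ L n ∅`: there is no Bogomolov sheaf
on the smooth projective varieties with function field `L` (`Pool/Agent/W602/GT`).
`IsUnirational ℂ L n`: `L` embeds in the field of rational functions in `n` variables
(`Pool/Agent/W619/TW`).
-/

set_option autoImplicit false
set_option linter.overlappingInstances false

open FF Module Pool.Agent.W602.GT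
open Pool.Agent.W619.TW (IsUnirational)
open Pool.Agent.R882.HT (Tower)

namespace Pool.Agent.Results.MP_aad98f_ag.SpecialTowers

/-- **Special images of towers.** Let `K` be the function field of the first variety `V` of a tower of
varieties of dimension `n ≥ 1` over a unirational variety, with columns for `2 r`, and let `V ⇢ X` be
a dominant rational map of degree `r`, `L` the function field of `X`. Then `X` is
of general type or unirational, and if `X` is special then it is unirational. -/
theorem result {n : ℕ} (hn : 1 ≤ n) {K : Type} [Field K] [Algebra ℂ K]
    (hK : Algebra.trdeg ℂ K = (n : ℕ))
    (L : Type) [Field L] [Algebra ℂ L] [Algebra L K] [IsScalarTower ℂ L K]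
    [FiniteDimensional L K]
    (h : Tower n (fun E _ _ => IsUnirational ℂ E n) K (2 * Module.finrank L K)) :
    (Special ℂ L n (fun _ => False) → IsUnirational ℂ L n) ∧
    (GeneralType ℂ L n ∨ IsUnirational ℂ L n) :=
  have hd := Pool.Agent.R882.HT.dichotomy hn (Pool.Agent.R882.HT.descends_unirational n) hK L h
  ⟨fun hS => hd.resolve_left fun hg => Pool.Agent.R882.LT.not_special_of_gt hn hg hS, hd⟩

end Pool.Agent.Results.MP_aad98f_ag.SpecialTowers
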